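import Pool.Agent.Helper26.KD.St

/-! # Project CB (MP_65faa7, bulk case), block K: convolution of the Green function -/

set_option autoImplicit false

open scoped BigOperators ENNReal Topology
open Pool.LE Pool.NL Filter

namespace Pool.KD
namespace GrnM

theorem summ_abs {d : ℕ} {F : Zd d → ℝ} (h : Summable (fun y => (1 + nn y) ^ 3 * |F y|)) :
    Summable (fun y => |F y|) := by
  apply Summable.of_nonneg_of_le (fun y => abs_nonneg _) _ h
  intro y
  have h0 : 0 ≤ nn y := Real.sqrt_nonneg _
  have h1 : (1 : ℝ) ≤ (1 + nn y) ^ 3 := one_le_pow₀ (by linarith)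
  have h2 := mul_le_mul_of_nonneg_right h1 (abs_nonneg (F y))
  linarith

theorem summ_sub {d : ℕ} {F : Zd d → ℝ} (h : Summable F) (x : Zd d) :
    Summable (fun y => F (x - y)) := (Equiv.subLeft x).summable_iff.2 h

theorem tsum_sub {d : ℕ} (F : Zd d → ℝ) (x : Zd d) :
    ∑' y, F (x - y) = ∑' y, F y := (Equiv.subLeft x).tsum_eq F

/-- shear -/
def sh (d : ℕ) : Zd d × Zd d ≃ Zd d × Zd d where
  toFun p := (p.1 + p.2, p.2)
  invFun p := (p.1 - p.2, p.2)
  left_inv p := by simp
  right_inv p := by simp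

end GrnM

open GrnM in
theorem hGrn : StGrn := by
  rintro d F g G K A hKS w ⟨M, hM⟩ x
  have hF : Summable (fun y => |F y|) := summ_abs hKS.F3.summ
  have hg : Summable (fun y => |g y|) := summ_abs hKS.g3.summ
  have hG : Summable G := by
    have h : Summable (fun y => (1 + nn y) ^ 3 * |G y|) := by
      refine hKS.Gs.congr (fun y => ?_)
      rw [abs_of_nonneg (hKS.G0 y)]
    refine (summ_abs h).congr (fun y => ?_)
    rw [abs_of_nonneg (hKS.G0 y)]
  have hGx := summ_sub hG x
  have hM0 : 0 ≤ M := (abs_nonneg _).trans (hM x)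
  have s1 : Summable (fun y => G (x - y) * w y) := by
    apply Summable.of_norm_bounded (hGx.mul_right M)
    intro y
    rw [Real.norm_eq_abs, abs_mul, abs_of_nonneg (hKS.G0 _)]
    exact mul_le_mul_of_nonneg_left (hM y) (hKS.G0 _)
  have s2 : Summable (fun y => g y * w (x - y)) := by
    apply Summable.of_norm_bounded (hg.mul_right M)
    intro y
    rw [Real.norm_eq_abs, abs_mul]
    exact mul_le_mul_of_nonneg_left (hM _) (abs_nonneg _)
  -- the double sum
  have s3 : Summable (fun q : Zd d × Zd d => F q.2 * (G (x - q.1) * w (q.1 - q.2))) := by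
    have h1 : Summable (fun q : Zd d × Zd d => G (x - q.1) * |F q.2|) :=
      hGx.mul_of_nonneg hF (fun y => hKS.G0 _) (fun y => abs_nonneg _)
    apply Summable.of_norm_bounded (h1.mul_right M)
    intro q
    rw [Real.norm_eq_abs, abs_mul, abs_mul, abs_of_nonneg (hKS.G0 _)]
    have h2 := mul_le_mul_of_nonneg_left (hM (q.1 - q.2))
      (mul_nonneg (hKS.G0 (x - q.1)) (abs_nonneg (F q.2)))
    calc |F q.2| * (G (x - q.1) * |w (q.1 - q.2)|) = G (x - q.1) * |F q.2| * |w (q.1 - q.2)| := by ring
      _ ≤ _ := h2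
  have s4 : Summable (fun q : Zd d × Zd d => F q.2 * (G (x - q.1 - q.2) * w q.1)) := by
    refine ((sh d).summable_iff.2 s3).congr (fun q => ?_)
    show F q.2 * (G (x - (q.1 + q.2)) * w (q.1 + q.2 - q.2)) = _
    rw [add_sub_cancel_right, sub_add_eq_sub_sub]
  have e3 : ∑' q : Zd d × Zd d, F q.2 * (G (x - q.1) * w (q.1 - q.2)) =
      ∑' y, G (x - y) * ∑' z, F z * w (y - z) := by
    rw [s3.tsum_prod]
    apply tsum_congr
    intro y
    rw [← tsum_mul_left]
    apply tsum_congr
    intro z
    ring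
  have e4 : ∑' q : Zd d × Zd d, F q.2 * (G (x - q.1 - q.2) * w q.1) =
      ∑' y, (∑' z, F z * G (x - y - z)) * w y := by
    rw [s4.tsum_prod]
    apply tsum_congr
    intro y
    rw [← tsum_mul_right]
    apply tsum_congr
    intro z
    ring
  have e5 : ∑' q : Zd d × Zd d, F q.2 * (G (x - q.1 - q.2) * w q.1) =
      ∑' q : Zd d × Zd d, F q.2 * (G (x - q.1) * w (q.1 - q.2)) := by
    rw [← (sh d).tsum_eq (fun q : Zd d × Zd d => F q.2 * (G (x - q.1) * w (q.1 - q.2)))]
    apply tsum_congr
    intro q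
    show _ = F q.2 * (G (x - (q.1 + q.2)) * w (q.1 + q.2 - q.2))
    rw [add_sub_cancel_right, sub_add_eq_sub_sub]
  have s5 : Summable (fun y => G (x - y) * ∑' z, F z * w (y - z)) := by
    refine s3.prod.congr (fun y => ?_)
    rw [← tsum_mul_left]
    apply tsum_congr
    intro z
    ring
  have s6 : Summable (fun y => (∑' z, F z * G (x - y - z)) * w y) := by
    refine s4.prod.congr (fun y => ?_)
    rw [← tsum_mul_right]
    apply tsum_congr
    intro z
    ring
  have s7 : Summable (fun y => g (x - y) * w y) := by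
    have h := summ_sub s2 x
    refine h.congr (fun y => ?_)
    rw [sub_sub_cancel]
  have e7 : ∑' y, g (x - y) * w y = ∑' y, g y * w (x - y) := by
    rw [← tsum_sub (fun y => g y * w (x - y)) x]
    apply tsum_congr
    intro y
    rw [sub_sub_cancel]
  have e1 : ∑' y, G (x - y) * w y = ∑' y, g y * w (x - y) + ∑' y, G (x - y) * ∑' z, F z * w (y - z) := by
    rw [← e7, ← e3, ← e5, e4, ← s7.tsum_add s6]
    apply tsum_congr
    intro y
    rw [hKS.eq (x - y)]
    ring
  refine ⟨s1, s2, s5, ?_⟩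
  have e8 : ∑' y, G (x - y) * (w y - ∑' z, F z * w (y - z)) =
      ∑' y, G (x - y) * w y - ∑' y, G (x - y) * ∑' z, F z * w (y - z) := by
    rw [← s1.tsum_sub s5]
    apply tsum_congr
    intro y
    ring
  rw [e8, e1, add_sub_cancel_right]

end Pool.KD
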