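import Pool.Agent.Helper26.KD.StT

/-! # Project CB (MP_65faa7, bulk case), block T0: truncation, the final statement -/

set_option autoImplicit false

open scoped BigOperators ENNReal Topology
open Pool.LE Pool.NL Filter

namespace Pool.KD
namespace T0fM

theorem bdd {d : ℕ} (L : Finset (Zd d)) : ∃ B : ℕ, ∀ y ∈ L, ∀ i, (y i).natAbs ≤ B := by
  refine ⟨L.sup (fun y => Finset.univ.sup (fun i => (y i).natAbs)), fun y hy i => ?_⟩
  have h1 : (y i).natAbs ≤ Finset.univ.sup (fun i => (y i).natAbs) :=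
    Finset.le_sup (f := fun i => (y i).natAbs) (Finset.mem_univ i)
  have h2 : Finset.univ.sup (fun i => (y i).natAbs) ≤
      L.sup (fun y => Finset.univ.sup (fun i => (y i).natAbs)) :=
    Finset.le_sup (f := fun y : Zd d => Finset.univ.sup (fun i => (y i).natAbs)) hy
  exact h1.trans h2

theorem sub_Lam {d : ℕ} (L : Finset (Zd d)) (B : ℕ) (hB : ∀ y ∈ L, ∀ i, (y i).natAbs ≤ B)
    (n M : ℕ) (hn : 1 ≤ n) (hM : B ≤ M) : L ⊆ CB.Lam d n M := by
  intro y hy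
  unfold CB.Lam
  rw [Fintype.mem_piFinset]
  intro i
  rw [Finset.mem_Ico]
  have h1 := hB y hy i
  have h2 : B ≤ M * n := hM.trans (Nat.le_mul_of_pos_right M hn)
  have h3 : M * n + 1 ≤ (M + 1) * n := by
    rw [add_mul, one_mul]
    omega
  generalize hA : M * n = a at h2 h3 ⊢
  generalize hC : (M + 1) * n = c at h3 ⊢
  omega

theorem rpow_small (η : ℝ) (hη : 0 < η) : ∃ B : ℕ, ∀ M : ℕ, 1 ≤ M → B ≤ M →
    (1 / (M : ℝ)) ^ (3 / 4 : ℝ) ≤ η := by
  have ht : 0 < η ^ (4 / 3 : ℝ) := Real.rpow_pos_of_pos hη _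
  obtain ⟨B, hB⟩ := exists_nat_ge (1 / η ^ (4 / 3 : ℝ))
  refine ⟨B, fun M hM hBM => ?_⟩
  have hM0 : (0 : ℝ) < M := by exact_mod_cast hM
  have h1 : 1 / η ^ (4 / 3 : ℝ) ≤ M := hB.trans (by exact_mod_cast hBM)
  have h2 : 1 / (M : ℝ) ≤ η ^ (4 / 3 : ℝ) := by
    rw [div_le_iff₀ hM0]
    rw [div_le_iff₀ ht] at h1
    linarith
  calc (1 / (M : ℝ)) ^ (3 / 4 : ℝ) ≤ (η ^ (4 / 3 : ℝ)) ^ (3 / 4 : ℝ) :=
        Real.rpow_le_rpow (by positivity) h2 (by norm_num)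
    _ = η := by
        rw [← Real.rpow_mul hη.le]
        norm_num

end T0fM

open T0fM in
theorem hT0f (hEK : StEK) (hT0c : StT0c) (hTrL : StTrL) : CB.StT0f := by
  obtain ⟨d₁, hd₁⟩ := hEK
  refine ⟨d₁, fun d hd ε hε => ?_⟩
  obtain ⟨K, A, hE⟩ := hd₁ d hd
  obtain ⟨C, hC, hT⟩ := hT0c d K A hE
  obtain ⟨M₁, hM₁⟩ := exists_nat_ge (3 * C / ε)
  refine ⟨max 1 M₁, le_max_left _ _, fun M hM => ?_⟩
  have hM1 : 1 ≤ M := (le_max_left _ _).trans hM
  have hMM : M₁ ≤ M := (le_max_right _ _).trans hM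
  obtain ⟨C', hC', hT'⟩ := hT M hM1
  obtain ⟨n₁, hn₁⟩ := exists_nat_ge (3 * C' / ε)
  refine ⟨max 16 n₁, by omega, fun n hn L x hL hx => ?_⟩
  have hn16 : 16 ≤ n := (le_max_left _ _).trans hn
  have hnn : n₁ ≤ n := (le_max_right _ _).trans hn
  have hn0 : (0 : ℝ) < n := by exact_mod_cast (by omega : 0 < n)
  have hM0 : (1 : ℝ) ≤ M := by exact_mod_cast hM1
  have hC0 : 0 < C := by linarith
  have hC'0 : 0 < C' := by linarith
  have hη : 0 < ε / (3 * (C' * (n : ℝ) ^ 2)) := by positivity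
  obtain ⟨B, hB⟩ := bdd L
  obtain ⟨B', hB'⟩ := rpow_small _ hη
  obtain ⟨M', hM'⟩ : ∃ M' : ℕ, M' = max M (max B B') := ⟨_, rfl⟩
  have h1 : M ≤ M' := by omega
  have h2 : B ≤ M' := by omega
  have h3 : B' ≤ M' := by omega
  have hLL : L ⊆ CB.Lam d n M' := sub_Lam L B hB n M' (by omega) h2
  have key := hT' n M' x hn16 h1 hx
  obtain ⟨-, -, hmono, -, -⟩ := hTrL d n M (pH d) hE.p0.le (by linarith [hE.p1])
  have hrr : ∀ y : Zd d, 0 ≤ CB.rr n y ^ (-(19 / 4) : ℝ) := by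
    intro y
    apply Real.rpow_nonneg
    unfold CB.rr
    positivity
  have hsum : ∑ y ∈ L, (cp (ES L) (pH d) x y - cp (ES (CB.Lam d n M)) (pH d) x y) *
        CB.rr n y ^ (-(19 / 4) : ℝ) ≤
      ∑ y ∈ CB.Lam d n M', (cp (ES (CB.Lam d n M')) (pH d) x y -
        cp (ES (CB.Lam d n M)) (pH d) x y) * CB.rr n y ^ (-(19 / 4) : ℝ) := by
    refine (Finset.sum_le_sum (g := fun y => (cp (ES (CB.Lam d n M')) (pH d) x y -
        cp (ES (CB.Lam d n M)) (pH d) x y) * CB.rr n y ^ (-(19 / 4) : ℝ)) ?_).trans ?_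
    · intro y _
      apply mul_le_mul_of_nonneg_right _ (hrr y)
      have := hmono L (CB.Lam d n M') hLL x y
      linarith
    · apply Finset.sum_le_sum_of_subset_of_nonneg hLL
      intro y _ _
      apply mul_nonneg _ (hrr y)
      have := hmono (CB.Lam d n M) (CB.Lam d n M') (hL.trans hLL) x y
      linarith
  have b1 : C / (M : ℝ) ^ 2 ≤ ε / 3 := by
    have h5 : 3 * C / ε ≤ M := hM₁.trans (by exact_mod_cast hMM)
    rw [div_le_iff₀ hε] at h5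
    rw [div_le_iff₀ (by positivity)]
    nlinarith [mul_le_mul_of_nonneg_left hM0 (by positivity : (0 : ℝ) ≤ ε * M)]
  have b2 : C' / n ≤ ε / 3 := by
    have h5 : 3 * C' / ε ≤ n := hn₁.trans (by exact_mod_cast hnn)
    rw [div_le_iff₀ hε] at h5
    rw [div_le_iff₀ hn0]
    linarith
  have b3 : C' * (n : ℝ) ^ 2 * (1 / (M' : ℝ)) ^ (3 / 4 : ℝ) ≤ ε / 3 := by
    have h5 := mul_le_mul_of_nonneg_left (hB' M' (by omega) h3)
      (by positivity : (0 : ℝ) ≤ C' * (n : ℝ) ^ 2)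
    refine h5.trans (le_of_eq ?_)
    field_simp
  have hfin := div_le_div_of_nonneg_right hsum (by positivity : (0 : ℝ) ≤ (n : ℝ) ^ 2)
  linarith

end Pool.KD
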